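import Pool.Agent.H67.KH.Val

/-! # KH.Roots : roots of polynomials reduce to roots (about 120 lines)

`roots_rd`: `n = p'.natDegree`; `Rd (p.coeff n) (p'.coeff n)` with `p'.coeff n ≠ 0`, so `p.natDegree = n` and `u = p.leadingCoeff` is a unit of `V`
(`Rd.inv`; `IsLocalHom` is `Place.isLocal`).  `Om K` is algebraically closed: `p = C u * ∏ (X - C r)`; every root is in `V` (`mem_of_root` for
`C u⁻¹ * p`), so it reduces to some `r'`; reduce the product: `p' = C u' * ∏ (X - C r')` (both sides have coefficients to which the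
coefficients of `p` reduce; `Rd.unique`), so `p'.roots` is the multiset of the `r'` (`Polynomial.roots_multiset_prod_X_sub_C`).  Alternatively
induction on the degree with `p = (X - C r) * q`. -/

namespace H67.KH

open H68.BB Polynomial

variable {K : Type} [Field K] {π : Place K (Om K)}

private theorem roots_aux [IsAlgClosed K] (n : ℕ) : ∀ P : π.V[X], P.map π.φ ≠ 0 →
    (P.map π.φ).natDegree = n → P.natDegree ≤ n →
    Multiset.Rel (Rd π.V π.φ) (P.map π.V.subtype).roots (P.map π.φ).roots := by
  have := π.isLocal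
  have hinj : Function.Injective π.V.subtype := Subtype.val_injective
  induction n with
  | zero =>
    intro P h0 hn hd
    have h1 : (P.map π.V.subtype).roots = 0 := by
      have h2 : (P.map π.V.subtype).natDegree = 0 :=
        Nat.le_zero.1 ((natDegree_map_le).trans hd)
      rw [eq_C_of_natDegree_eq_zero h2, roots_C]
    have h2 : (P.map π.φ).roots = 0 := by
      rw [eq_C_of_natDegree_eq_zero hn, roots_C]
    rw [h1, h2]
    exact Multiset.Rel.zero
  | succ n ih =>
    intro P h0 hn hd
    have hPn : P.natDegree = n + 1 := le_antisymm hd (hn ▸ natDegree_map_le)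
    -- the leading coefficient is a unit
    have hlc : IsUnit P.leadingCoeff := by
      have h1 : π.φ (P.coeff (n + 1)) ≠ 0 := by
        rw [← coeff_map, ← hn, coeff_natDegree]
        exact leadingCoeff_ne_zero.2 h0
      rw [leadingCoeff, hPn]
      exact (isUnit_map_iff π.φ _).1 (isUnit_iff_ne_zero.2 h1)
    obtain ⟨u, hu⟩ := hlc
    -- a root
    have hdeg : (P.map π.V.subtype).degree ≠ 0 := by
      have h1 : (P.map π.V.subtype).natDegree = n + 1 := by
        rw [natDegree_map_eq_of_injective hinj, hPn]
      intro h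
      have := natDegree_eq_of_degree_eq_some (n := 0) h
      omega
    obtain ⟨r, hr⟩ := IsAlgClosed.exists_root _ hdeg
    have hmon : (C ((u⁻¹ : π.Vˣ) : π.V) * P).Monic := by
      rw [Monic, leadingCoeff_mul' , leadingCoeff_C, ← hu, Units.inv_mul]
      rw [leadingCoeff_C, ← hu, Units.inv_mul]
      exact one_ne_zero
    have hrV : r ∈ π.V := by
      refine mem_of_root (p := (C ((u⁻¹ : π.Vˣ) : π.V) * P).map π.V.subtype) (fun i => ?_)
        (hmon.map _) ?_
      · rw [coeff_map]
        exact ((C ((u⁻¹ : π.Vˣ) : π.V) * P).coeff i).2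
      · rw [Polynomial.map_mul, IsRoot, eval_mul, hr, mul_zero]
    obtain ⟨R, hR⟩ : ∃ R : π.V, (R : Om K) = r := ⟨⟨r, hrV⟩, rfl⟩
    have hroot : P.IsRoot R := by
      apply hinj
      have h1 : π.V.subtype (P.eval R) = (P.map π.V.subtype).eval (π.V.subtype R) :=
        (eval_map_apply _ _).symm
      rw [h1, map_zero]
      change (P.map π.V.subtype).eval (R : Om K) = 0
      rw [hR]
      exact hr
    obtain ⟨Q, hQ⟩ := dvd_iff_isRoot.2 hroot
    have e1 : P.map π.V.subtype = (X - C r) * Q.map π.V.subtype := by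
      rw [hQ, Polynomial.map_mul, Polynomial.map_sub, map_X, map_C]
      congr 3
    have e2 : P.map π.φ = (X - C (π.φ R)) * Q.map π.φ := by
      rw [hQ, Polynomial.map_mul, Polynomial.map_sub, map_X, map_C]
    have hQ0 : Q.map π.φ ≠ 0 := by
      intro h
      rw [e2, h, mul_zero] at h0
      exact h0 rfl
    have hQ1 : Q.map π.V.subtype ≠ 0 := by
      intro h
      rw [e1, h, mul_zero] at hdeg
      rw [(Polynomial.map_eq_zero_iff hinj).1 (e1.trans (by rw [h, mul_zero])), Polynomial.map_zero] at h0
      exact h0 rfl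
    have hn' : (Q.map π.φ).natDegree = n := by
      have := hn
      rw [e2, natDegree_mul (X_sub_C_ne_zero _) hQ0, natDegree_X_sub_C] at this
      omega
    have hd' : Q.natDegree ≤ n := by
      have h1 : (P.map π.V.subtype).natDegree = n + 1 := by
        rw [natDegree_map_eq_of_injective hinj, hPn]
      rw [e1, natDegree_mul (X_sub_C_ne_zero _) hQ1, natDegree_X_sub_C,
        natDegree_map_eq_of_injective hinj] at h1
      omega
    rw [e1, e2, roots_mul (mul_ne_zero (X_sub_C_ne_zero _) hQ1), roots_X_sub_C,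
      roots_mul (mul_ne_zero (X_sub_C_ne_zero _) hQ0), roots_X_sub_C, Multiset.singleton_add,
      Multiset.singleton_add]
    refine Multiset.Rel.cons ?_ (ih Q hQ0 hn' hd')
    rw [← hR]
    exact ⟨R.2, rfl⟩

/-- the roots of `p` reduce to the roots of `p'` if the coefficients do and the degree does not drop -/
theorem roots_rd [IsAlgClosed K] {p : (Om K)[X]} {p' : K[X]} (h0 : p' ≠ 0)
    (hc : ∀ i, Rd π.V π.φ (p.coeff i) (p'.coeff i)) (hd : p.natDegree ≤ p'.natDegree) :
    Multiset.Rel (Rd π.V π.φ) p.roots p'.roots := by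
  have hl : p ∈ Polynomial.lifts π.V.subtype := by
    rw [Polynomial.lifts_iff_coeff_lifts]
    intro i
    exact ⟨⟨p.coeff i, (hc i).mem⟩, rfl⟩
  obtain ⟨P, hP⟩ := (Polynomial.mem_lifts _).1 hl
  have hinj : Function.Injective π.V.subtype := Subtype.val_injective
  have hP' : P.map π.φ = p' := by
    ext i
    rw [coeff_map]
    have h1 : Rd π.V π.φ (p.coeff i) (π.φ (P.coeff i)) := by
      rw [← hP, coeff_map]
      exact ⟨(P.coeff i).2, rfl⟩
    exact h1.unique (hc i)
  have h := roots_aux (π := π) p'.natDegree P (by rw [hP']; exact h0) (by rw [hP']) (by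
    rw [← natDegree_map_eq_of_injective hinj, hP]
    exact hd)
  rw [hP, hP'] at h
  exact h

/-- every automorphism over `K(t)` permutes the roots -/
theorem roots_sigma (σ : Om K ≃ₐ[RatFunc K] Om K) (p : (Om K)[X]) :
    p.roots.map σ = (p.map (σ : Om K →+* Om K)).roots := by
  have h := (IsAlgClosed.splits p).roots_map (σ : Om K →+* Om K)
  rw [h]
  rfl

end H67.KH
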