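import Mathlib

/-! # KH.Krull : `n` polynomials without constant term in `n + 1` unknowns have a common zero `≠ 0` (about 80 lines, Mathlib only)

Suppose `0` is the only common zero.  By the Nullstellensatz (`MvPolynomial.vanishingIdeal_zeroLocus_eq_radical`) the radical of the ideal
`(g_0, …, g_{n-1})` is the maximal ideal `m` of the origin, so `m` is minimal over an ideal with `n` generators and its height is `≤ n`
(Krull: `Ideal.height_le_spanFinrank` or `Ideal.height_le_spanRank_toENat_of_mem_minimal_primes`); but the height of `m` is `n + 1` (`Polynomial.height_eq_height_add_one` and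
`MvPolynomial.finSuccEquiv`, or all maximal ideals are translates of `m` and the Krull dimension of `K[X_0..X_n]` is `n+1`, or the chain of primes `(X_0,…,X_{i-1})`). -/

namespace H67.KH

theorem krull {K : Type} [Field K] [IsAlgClosed K] {n : ℕ} (g : Fin n → MvPolynomial (Fin (n + 1)) K)
    (h0 : ∀ i, MvPolynomial.eval 0 (g i) = 0) :
    ∃ u : Fin (n + 1) → K, u ≠ 0 ∧ ∀ i, MvPolynomial.eval u (g i) = 0 := by
  classical
  by_contra hcon
  have hcon' : ∀ u : Fin (n + 1) → K, (∀ i, MvPolynomial.eval u (g i) = 0) → u = 0 := by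
    intro u hu
    by_contra hne
    exact hcon ⟨u, hne, hu⟩
  set I : Ideal (MvPolynomial (Fin (n + 1)) K) := Ideal.span (Set.range g) with hI
  have hzl : MvPolynomial.zeroLocus K I = {0} := by
    ext u
    rw [MvPolynomial.mem_zeroLocus_iff, Set.mem_singleton_iff]
    constructor
    · intro h
      apply hcon'
      intro i
      have h1 := h (g i) (Ideal.subset_span ⟨i, rfl⟩)
      exact h1
    · intro h p hp
      have h1 : I ≤ RingHom.ker (MvPolynomial.eval (0 : Fin (n + 1) → K)) := by
        rw [hI, Ideal.span_le]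
        rintro _ ⟨i, rfl⟩
        exact (RingHom.mem_ker).2 (h0 i)
      have h2 := (RingHom.mem_ker).1 (h1 hp)
      rw [h]
      exact h2
  let φ : ℕ → (MvPolynomial (Fin (n + 1)) K →ₐ[K] MvPolynomial (Fin (n + 1)) K) := fun i =>
    MvPolynomial.aeval (fun j : Fin (n + 1) => if (j : ℕ) < i then 0 else MvPolynomial.X j)
  have hφX : ∀ i (j : Fin (n + 1)), φ i (MvPolynomial.X j) =
      if (j : ℕ) < i then 0 else MvPolynomial.X j := by
    intro i j
    exact MvPolynomial.aeval_X _ j
  let P : ℕ → Ideal (MvPolynomial (Fin (n + 1)) K) := fun i => RingHom.ker (φ i)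
  have hPprime : ∀ i, (P i).IsPrime := fun i => RingHom.ker_isPrime (φ i)
  have hcomp : ∀ i, (φ (i + 1)).comp (φ i) = φ (i + 1) := by
    intro i
    apply MvPolynomial.algHom_ext
    intro j
    rw [AlgHom.comp_apply, hφX]
    split_ifs with h
    · rw [map_zero, hφX, if_pos (by omega)]
    · rfl
  have hle : ∀ i, P i ≤ P (i + 1) := by
    intro i p hp
    have h1 : φ i p = 0 := hp
    show φ (i + 1) p = 0
    rw [← hcomp i, AlgHom.comp_apply, h1, map_zero]
  have hlt : ∀ i, i < n + 1 → P i < P (i + 1) := by
    intro i hi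
    refine lt_of_le_of_ne (hle i) ?_
    intro h
    have h1 : (MvPolynomial.X (⟨i, hi⟩ : Fin (n + 1)) : MvPolynomial (Fin (n + 1)) K) ∈ P (i + 1) := by
      show φ (i + 1) _ = 0
      rw [hφX, if_pos (by simp)]
    rw [← h] at h1
    have h2 : φ i (MvPolynomial.X (⟨i, hi⟩ : Fin (n + 1))) = 0 := h1
    rw [hφX, if_neg (by simp)] at h2
    exact MvPolynomial.X_ne_zero _ h2
  have hm : P (n + 1) = I.radical := by
    rw [← MvPolynomial.vanishingIdeal_zeroLocus_eq_radical (K := K), hzl]
    ext p
    rw [MvPolynomial.mem_vanishingIdeal_iff]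
    have h1 : ∀ p, φ (n + 1) p = MvPolynomial.C (MvPolynomial.aeval (0 : Fin (n + 1) → K) p) := by
      intro p
      have h2 : φ (n + 1) = (Algebra.ofId K (MvPolynomial (Fin (n + 1)) K)).comp
          (MvPolynomial.aeval (0 : Fin (n + 1) → K)) := by
        apply MvPolynomial.algHom_ext
        intro j
        rw [hφX, if_pos j.isLt, AlgHom.comp_apply, MvPolynomial.aeval_X, Pi.zero_apply, map_zero]
      rw [h2, AlgHom.comp_apply]
      rfl
    constructor
    · intro hp x hx
      rw [Set.mem_singleton_iff] at hx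
      have h3 : φ (n + 1) p = 0 := hp
      rw [h1] at h3
      rw [hx]
      exact (MvPolynomial.C_eq_zero).1 h3
    · intro hp
      show φ (n + 1) p = 0
      rw [h1, hp 0 rfl, map_zero]
  have hmin : P (n + 1) ∈ I.minimalPrimes := by
    refine ⟨⟨hPprime _, ?_⟩, ?_⟩
    · rw [hm]
      exact Ideal.le_radical
    · intro q hq _
      rw [hm]
      exact hq.1.radical_le_iff.2 hq.2
  have hup : (P (n + 1)).height ≤ n := by
    have h1 := Ideal.height_le_card_of_mem_minimalPrimes_span (Set.finite_range g) hmin
    refine h1.trans ?_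
    have h2 : (Set.range g).ncard ≤ n := by
      rw [← Set.image_univ]
      refine (Set.ncard_image_le Set.finite_univ).trans ?_
      rw [Set.ncard_univ, Nat.card_eq_fintype_card, Fintype.card_fin]
    exact_mod_cast h2
  have hlow : ((n + 1 : ℕ) : ℕ∞) ≤ (P (n + 1)).height := by
    have h1 := PrimeSpectrum.height_eq_orderHeight
      (⟨P (n + 1), hPprime _⟩ : PrimeSpectrum (MvPolynomial (Fin (n + 1)) K))
    have h2 : (P (n + 1)).height = Order.height
      (⟨P (n + 1), hPprime _⟩ : PrimeSpectrum (MvPolynomial (Fin (n + 1)) K)) := h1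
    rw [h2]
    let S : LTSeries (PrimeSpectrum (MvPolynomial (Fin (n + 1)) K)) :=
      { length := n + 1
        toFun := fun i => ⟨P (i : ℕ), hPprime _⟩
        step := fun i => hlt i i.isLt }
    exact Order.length_le_height (p := S) (le_refl _)
  have h3 := hlow.trans hup
  have h4 : n + 1 ≤ n := by exact_mod_cast h3
  omega

end H67.KH
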