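import Pool.Agent.H67.KH.Def

/-! # KH.Val : places, integrality, automorphisms (about 120 lines)

`rd_ev`: `MvPolynomial.induction_on`.  `mem_of_root`: a root of a monic polynomial with coefficients in the valuation ring `V` is in `V`
(`V` is integrally closed in `Om K`: `IsIntegrallyClosed.isIntegral_iff`, or directly: if `r ∉ V` then `r⁻¹` is in the maximal ideal, divide by `r^n`).
`mem_of_cubic`: `x` is a root of `X^3 + a X + (b - z)`.  `sigma_*`: see the private lemmas `sig_cst`, `sig_tt` of `H68.BB.Rel`. -/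

namespace H67.KH

open H68.BB Polynomial

variable {K : Type} [Field K] (π : Place K (Om K))

theorem rd_cst (c : K) : Rd π.V π.φ (algebraMap K (Om K) c) c := π.const c

variable {π}

theorem rd_of_mem {x : Om K} (h : x ∈ π.V) : ∃ c : K, Rd π.V π.φ x c := ⟨_, h, rfl⟩

/-- reduction of the value of a polynomial with coefficients in `K` -/
theorem rd_ev (a : MvPolynomial (Fin 2) K) {s t : Om K} {s' t' : K} (hs : Rd π.V π.φ s s')
    (ht : Rd π.V π.φ t t') : Rd π.V π.φ (ev a s t) (ev a s' t') := by
  unfold ev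
  induction a using MvPolynomial.induction_on with
  | C c =>
    rw [MvPolynomial.aeval_C, MvPolynomial.aeval_C]
    exact π.const c
  | add p q hp hq => rw [map_add, map_add]; exact hp.add hq
  | mul_X p i hp =>
    rw [map_mul, map_mul, MvPolynomial.aeval_X, MvPolynomial.aeval_X]
    refine hp.mul ?_
    fin_cases i
    · exact hs
    · exact ht

theorem mem_of_root {p : (Om K)[X]} (hp : ∀ i, p.coeff i ∈ π.V) (hm : p.Monic) {r : Om K}
    (hr : p.IsRoot r) : r ∈ π.V := by
  have h1 : IsIntegral π.V r := by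
    let f : π.V →+* Om K := π.V.subtype
    have hl : p ∈ Polynomial.lifts f := by
      rw [Polynomial.lifts_iff_coeff_lifts]
      intro i
      exact ⟨⟨p.coeff i, hp i⟩, rfl⟩
    obtain ⟨q, hq, -, hqm⟩ := Polynomial.lifts_and_degree_eq_and_monic hl hm
    refine ⟨q, hqm, ?_⟩
    have h2 : (q.map f).eval r = 0 := by rw [hq]; exact hr
    rwa [Polynomial.eval_map] at h2
  have h3 := (IsIntegrallyClosed.isIntegral_iff (R := π.V) (K := Om K)).1 h1
  obtain ⟨y, hy⟩ := h3
  rw [← hy]
  exact y.2

/-- `x ∈ V` if `x^3 + a x + b ∈ V` -/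
theorem mem_of_cubic {x a b : Om K} (ha : a ∈ π.V) (hb : b ∈ π.V) (h : x ^ 3 + a * x + b ∈ π.V) : x ∈ π.V := by
  have hm : (X ^ 3 + (C a * X + C (b - (x ^ 3 + a * x + b))) : (Om K)[X]).Monic :=
    monic_X_pow_add (by
      refine (degree_linear_le).trans_lt ?_
      norm_num)
  refine mem_of_root (p := X ^ 3 + (C a * X + C (b - (x ^ 3 + a * x + b)))) (fun i => ?_) hm ?_
  · simp only [coeff_add, coeff_X_pow, coeff_C_mul, coeff_X, coeff_C]
    refine add_mem ?_ (add_mem (mul_mem ha ?_) ?_)
    · split_ifs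
      · exact π.V.one_mem
      · exact π.V.zero_mem
    · split_ifs
      · exact π.V.one_mem
      · exact π.V.zero_mem
    · split_ifs
      · exact sub_mem hb h
      · exact π.V.zero_mem
  · rw [IsRoot, eval_add, eval_add, eval_pow, eval_mul, eval_X, eval_C, eval_C]
    ring

/-- `tt` and the constants are fixed by the automorphisms -/
theorem sigma_cst (σ : Om K ≃ₐ[RatFunc K] Om K) (c : K) : σ (algebraMap K (Om K) c) = algebraMap K (Om K) c := by
  have h : (algebraMap K (Om K) c) = algebraMap (RatFunc K) (Om K) (algebraMap K (RatFunc K) c) :=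
    IsScalarTower.algebraMap_apply K (RatFunc K) (Om K) c
  rw [h]
  exact σ.commutes _

theorem sigma_tt (σ : Om K ≃ₐ[RatFunc K] Om K) : σ (tt K) = tt K := by
  exact σ.commutes _

theorem sigma_ev (σ : Om K ≃ₐ[RatFunc K] Om K) (a : MvPolynomial (Fin 2) K) (s t : Om K) :
    σ (ev a s t) = ev a (σ s) (σ t) := by
  unfold ev
  induction a using MvPolynomial.induction_on with
  | C c =>
    rw [MvPolynomial.aeval_C, MvPolynomial.aeval_C]
    exact sigma_cst σ c
  | add p q hp hq => rw [map_add, map_add, map_add, hp, hq]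
  | mul_X p i hp =>
    rw [map_mul, map_mul, map_mul, MvPolynomial.aeval_X, MvPolynomial.aeval_X, hp]
    congr 1
    fin_cases i
    · rfl
    · rfl

end H67.KH
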