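import Pool.Agent.H68.BB.Plc
import Pool.Agent.H68.BB.Red

/-! # KH.Def : zero-cycles on `W × W` for an elliptic K3 surface `W : y^2 = x^3 + a x + b` in `ℙ(1,1,4,6)`
(definitions only, no sorry)

`K` is a field (later: algebraically closed of characteristic zero), `Om K` the algebraic closure of `K(t)`, `Place K (Om K)`
a `K`-rational place of it (both from `H68.BB.Def`), `Rd V φ x a` means `x ∈ V` and `φ x = a` (`H68.BB.Red`). -/

namespace H67.KH

open H68.BB

/-- homogeneous coordinates `(t0 : t1 : x : y)` in the weighted projective space `ℙ(1,1,4,6)` -/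
@[ext] structure Pt (F : Type) where
  t0 : F
  t1 : F
  x : F
  y : F

/-- apply a map to the coordinates -/
def Pt.map {F G : Type} (f : F → G) (P : Pt F) : Pt G := ⟨f P.t0, f P.t1, f P.x, f P.y⟩

/-- not all coordinates are zero -/
def Pt.NZ {F : Type} [Zero F] (P : Pt F) : Prop := P.t0 ≠ 0 ∨ P.t1 ≠ 0 ∨ P.x ≠ 0 ∨ P.y ≠ 0

variable {K : Type} [Field K]

/-- the value of a polynomial in two variables over `K` at a point of an extension field -/
noncomputable def ev {F : Type} [Field F] [Algebra K F] (a : MvPolynomial (Fin 2) K) (t0 t1 : F) : F :=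
  MvPolynomial.aeval ![t0, t1] a

/-- the point lies on the surface `W : y^2 = x^3 + a(t0,t1) x + b(t0,t1)` in `ℙ(1,1,4,6)` (`a`, `b` are binary forms of
degrees 8 and 12) -/
def OnW {F : Type} [Field F] [Algebra K F] (a b : MvPolynomial (Fin 2) K) (P : Pt F) : Prop :=
  P.NZ ∧ P.y ^ 2 = P.x ^ 3 + ev a P.t0 P.t1 * P.x + ev b P.t0 P.t1

/-- the discriminant form `-4 a^3 - 27 b^2`, of degree 24 -/
noncomputable def disc (a b : MvPolynomial (Fin 2) K) : MvPolynomial (Fin 2) K := -4 * a ^ 3 - 27 * b ^ 2

/-- the zero section, the point `(0 : 0 : 1 : 1)` -/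
def o (F : Type) [Zero F] [One F] : Pt F := ⟨0, 0, 1, 1⟩

/-- specialisation at a place: some scalar multiple of the coordinate vector `P` is integral and reduces to `p ≠ 0` -/
def Sp (π : Place K (Om K)) (P : Pt (Om K)) (p : Pt K) : Prop :=
  p.NZ ∧ ∃ c : Om K, c ≠ 0 ∧ Rd π.V π.φ (c * P.t0) p.t0 ∧ Rd π.V π.φ (c * P.t1) p.t1 ∧
    Rd π.V π.φ (c ^ 4 * P.x) p.x ∧ Rd π.V π.φ (c ^ 6 * P.y) p.y

/-- specialisation of a pair of points -/
def Sp2 (π : Place K (Om K)) (s : Pt (Om K) × Pt (Om K)) (p : Pt K × Pt K) : Prop :=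
  Sp π s.1 p.1 ∧ Sp π s.2 p.2

/-- zero-cycles: the free abelian group on pairs of coordinate vectors -/
abbrev Cyc (K : Type) : Type := (Pt K × Pt K) →₀ ℤ

/-- the zero-cycle given by one pair of points -/
noncomputable def pt (P Q : Pt K) : Cyc K := Finsupp.single (P, Q) 1

/-- the zero-cycle given by a multiset of pairs of points -/
noncomputable def cyc (S : Multiset (Pt K × Pt K)) : Cyc K := (S.map (fun s => pt s.1 s.2)).sum

/-- all points of the multiset lie on `W × W` -/
def AllOn {F : Type} [Field F] [Algebra K F] (a b : MvPolynomial (Fin 2) K) (S : Multiset (Pt F × Pt F)) : Prop :=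
  ∀ s ∈ S, OnW a b s.1 ∧ OnW a b s.2

/-- a finite multiset of pairs of points over `Ω` which is stable under all automorphisms of `Ω` over `K(t)`: the generic
fibre of an effective 1-cycle of `ℙ¹ × W × W` all of whose components dominate `ℙ¹` -/
def GalStable (S : Multiset (Pt (Om K) × Pt (Om K))) : Prop :=
  ∀ σ : Om K ≃ₐ[RatFunc K] Om K, S.map (fun s => (s.1.map σ, s.2.map σ)) = S

/-- zero-cycles of `W × W` rationally equivalent to zero: the subgroup generated by the differences of two fibres over
`ℙ¹` of effective 1-cycles of `ℙ¹ × W × W` which are dominant over `ℙ¹` (coordinate vectors of a specialisation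
are only determined up to scalars, so this contains the differences of proportional coordinate vectors) -/
noncomputable def RatEq (a b : MvPolynomial (Fin 2) K) : AddSubgroup (Cyc K) :=
  AddSubgroup.closure {z | ∃ (S : Multiset (Pt (Om K) × Pt (Om K))) (π π' : Place K (Om K))
    (c c' : Multiset (Pt K × Pt K)), AllOn a b S ∧ GalStable S ∧ Multiset.Rel (Sp2 π) S c ∧
    Multiset.Rel (Sp2 π') S c' ∧ z = cyc c - cyc c'}

/-- `(P - P') × (Q - Q')` as a zero-cycle -/
noncomputable def prod (P P' Q Q' : Pt K) : Cyc K := pt P Q - pt P' Q - pt P Q' + pt P' Q'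

end H67.KH
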